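import Mathlib

/-!
# The Hall-type condition does not force an alternating path covering one side

A bipartite graph with parts of sizes 4 and 3 and a red/blue colouring of its edges that satisfies
`|N^{RB}(X)| ≥ |X| - 1` for every `X ⊆ A`, but has no alternating path covering `A`.
-/

namespace Pool.Agent.Results.MP_9cf868_co.NoAlternatingPath

/-- The vertices joined to `X` both by a red edge and by a blue (non-red) edge. -/
def NRB {V : Type} (G : SimpleGraph V) (red : Sym2 V → Prop) (X : Set V) : Set V :=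
  {v | (∃ x ∈ X, G.Adj x v ∧ red s(x, v)) ∧ ∃ x ∈ X, G.Adj x v ∧ ¬ red s(x, v)}

/-- An alternating path: a list of distinct vertices, consecutive ones being adjacent, such that
any two consecutive edges have different colours. -/
def IsAlternatingPath {V : Type} (G : SimpleGraph V) (red : Sym2 V → Prop) (p : List V) : Prop :=
  p.Nodup ∧ p.IsChain G.Adj ∧ ∀ x y z : V, [x, y, z] <:+: p → (red s(x, y) ↔ ¬ red s(y, z))

/-- The statement asked about. -/
def Statement : Prop :=
  ∀ (V : Type) (_ : Fintype V) (G : SimpleGraph V) (A B : Set V) (red : Sym2 V → Prop),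
    G.IsBipartiteWith A B → A ∪ B = Set.univ →
    (∀ X ⊆ A, X.ncard ≤ (NRB G red X).ncard + 1) →
    ∃ p : List V, IsAlternatingPath G red p ∧ ∀ a ∈ A, a ∈ p

/-- The red edges: `A = {0,1,2,3}`, `B = {4,5,6}`. -/
def redL : List (Fin 7 × Fin 7) := [(1, 4), (1, 5), (3, 5), (0, 6), (3, 6)]

/-- The blue edges. -/
def blueL : List (Fin 7 × Fin 7) := [(0, 4), (0, 5), (2, 5), (1, 6), (2, 6)]

/-- Red adjacency. -/
def rd (u v : Fin 7) : Bool := (u, v) ∈ redL || (v, u) ∈ redL

/-- Blue adjacency. -/
def bl (u v : Fin 7) : Bool := (u, v) ∈ blueL || (v, u) ∈ blueL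

theorem rd_symm : ∀ u v, rd u v = rd v u := by decide

/-- The graph. -/
def G : SimpleGraph (Fin 7) where
  Adj u v := rd u v = true ∨ bl u v = true
  symm := ⟨by decide⟩
  loopless := ⟨by decide⟩

instance : DecidableRel G.Adj := fun u v => inferInstanceAs (Decidable (rd u v = true ∨ bl u v = true))

/-- The red edges as a set of unordered pairs. -/
def red : Sym2 (Fin 7) → Prop :=
  Sym2.lift ⟨fun u v => rd u v = true, fun u v => by
    show (rd u v = true) = (rd v u = true)
    rw [rd_symm u v]⟩

theorem red_mk (u v : Fin 7) : red s(u, v) ↔ rd u v = true := Iff.rfl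

/-- One more vertex may be put in front of an alternating path. -/
def ok (v : Fin 7) : List (Fin 7) → Bool
  | [] => true
  | [w] => decide (G.Adj v w) && decide (v ≠ w)
  | w :: x :: l => decide (G.Adj v w) && decide (v ∉ w :: x :: l) && (rd v w != rd w x)

/-- All alternating paths with `n` vertices. -/
def paths : ℕ → List (List (Fin 7))
  | 0 => [[]]
  | n + 1 => (paths n).flatMap fun p => ((List.finRange 7).filter fun v => ok v p).map (· :: p)

theorem mem_paths : ∀ p : List (Fin 7), IsAlternatingPath G red p → p ∈ paths p.length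
  | [], _ => by simp [paths]
  | v :: p, h => by
    have hp : IsAlternatingPath G red p := by
      refine ⟨(List.nodup_cons.1 h.1).2, h.2.1.tail, fun x y z hxyz => h.2.2 x y z ?_⟩
      exact hxyz.trans (List.suffix_cons v p).isInfix
    have hok : ok v p = true := by
      match p, h with
      | [], _ => rfl
      | [w], h =>
        simp only [ok, Bool.and_eq_true, decide_eq_true_eq]
        refine ⟨?_, ?_⟩
        · have := h.2.1
          simpa using this
        · have := h.1
          simpa using this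
      | w :: x :: l, h =>
        simp only [ok, Bool.and_eq_true, decide_eq_true_eq]
        refine ⟨⟨?_, ?_⟩, ?_⟩
        · have := h.2.1
          rw [List.isChain_cons_cons] at this
          exact this.1
        · exact (List.nodup_cons.1 h.1).1
        · have h3 := h.2.2 v w x ⟨[], l, by simp⟩
          rw [red_mk, red_mk] at h3
          revert h3
          cases rd v w <;> cases rd w x <;> simp
    simp only [List.length_cons, paths, List.mem_flatMap, List.mem_map, List.mem_filter]
    exact ⟨p, mem_paths p hp, v, ⟨List.mem_finRange v, hok⟩, rfl⟩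

theorem no_cover (n : Fin 8) : ∀ p ∈ paths n,
    ¬ ((0 : Fin 7) ∈ p ∧ (1 : Fin 7) ∈ p ∧ (2 : Fin 7) ∈ p ∧ (3 : Fin 7) ∈ p) := by
  revert n
  decide +kernel

theorem condition : ∀ X : Finset (Fin 7), X ⊆ {0, 1, 2, 3} →
    X.card ≤ (Finset.univ.filter fun v => (∃ x ∈ X, rd x v = true) ∧
      ∃ x ∈ X, bl x v = true).card + 1 := by
  decide +kernel

theorem rd_bl : ∀ u v, bl u v = true → rd u v = false := by decide

theorem bip : ∀ u v : Fin 7, G.Adj u v →
    (u ∈ ({0, 1, 2, 3} : Finset (Fin 7)) ∧ v ∈ ({4, 5, 6} : Finset (Fin 7))) ∨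
    (u ∈ ({4, 5, 6} : Finset (Fin 7)) ∧ v ∈ ({0, 1, 2, 3} : Finset (Fin 7))) := by decide

theorem main : G.IsBipartiteWith (({0, 1, 2, 3} : Finset (Fin 7)) : Set (Fin 7))
      (({4, 5, 6} : Finset (Fin 7)) : Set (Fin 7)) ∧
    ((({0, 1, 2, 3} : Finset (Fin 7)) : Set (Fin 7)) ∪ (({4, 5, 6} : Finset (Fin 7)) : Set (Fin 7)))
      = Set.univ ∧
    (∀ X ⊆ (({0, 1, 2, 3} : Finset (Fin 7)) : Set (Fin 7)), X.ncard ≤ (NRB G red X).ncard + 1) ∧
    ¬ ∃ p : List (Fin 7), IsAlternatingPath G red p ∧
      ∀ a ∈ (({0, 1, 2, 3} : Finset (Fin 7)) : Set (Fin 7)), a ∈ p := by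
  classical
  refine ⟨⟨?_, ?_⟩, ?_, ?_, ?_⟩
  · rw [Finset.disjoint_coe]; decide
  · intro u v huv
    simpa only [Finset.mem_coe] using bip u v huv
  · rw [← Finset.coe_union, Finset.coe_eq_univ]; decide
  · intro X hX
    obtain ⟨Y, rfl⟩ := X.toFinite.exists_finset_coe
    have hY : Y ⊆ {0, 1, 2, 3} := Finset.coe_subset.1 hX
    have h1 := condition Y hY
    rw [Set.ncard_coe_finset]
    refine h1.trans (Nat.add_le_add_right ?_ 1)
    rw [← Set.ncard_coe_finset]
    refine Set.ncard_le_ncard ?_ (Set.toFinite _)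
    intro v hv
    have hv' := (Finset.mem_filter.1 (Finset.mem_coe.1 hv)).2
    obtain ⟨⟨x, hx, hxv⟩, y, hy, hyv⟩ := hv'
    refine ⟨⟨x, Finset.mem_coe.2 hx, Or.inl hxv, hxv⟩, y, Finset.mem_coe.2 hy, Or.inr hyv, ?_⟩
    rw [red_mk, rd_bl y v hyv]
    simp
  · rintro ⟨p, hp, hcov⟩
    have hlen : p.length < 8 := by
      have := List.Nodup.length_le_card hp.1
      simpa using Nat.lt_succ_of_le this
    refine no_cover ⟨p.length, hlen⟩ p (mem_paths p hp) ⟨?_, ?_, ?_, ?_⟩ <;>
    · apply hcov
      simp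

/-- There is a red/blue coloured bipartite graph on `4 + 3` vertices satisfying the condition but
without an alternating path covering `A`; in particular the statement asked about is false. -/
theorem result :
    (∃ (G : SimpleGraph (Fin 7)) (A B : Set (Fin 7)) (red : Sym2 (Fin 7) → Prop),
      G.IsBipartiteWith A B ∧ A ∪ B = Set.univ ∧ A.ncard = 4 ∧
      (∀ X ⊆ A, X.ncard ≤ (NRB G red X).ncard + 1) ∧
      ¬ ∃ p : List (Fin 7), IsAlternatingPath G red p ∧ ∀ a ∈ A, a ∈ p) ∧
    ¬ Statement := by
  refine ⟨⟨G, _, _, red, main.1, main.2.1, ?_, main.2.2.1, main.2.2.2⟩, fun h => ?_⟩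
  · rw [Set.ncard_coe_finset]; decide
  · exact main.2.2.2 (h (Fin 7) inferInstance G _ _ red main.1 main.2.1 main.2.2.1)

end Pool.Agent.Results.MP_9cf868_co.NoAlternatingPath
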